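import Pool.Agent.Lib.MP_cdaa24_an.Final

/-!
Blecher's decomposition question has a negative answer, already for commutative C*-algebras.
-/

open scoped CStarMatrix

namespace Pool.Agent.Results.MP_cdaa24_an.CommutativeCounterexample

section Defs

variable {A B H : Type} [NonUnitalCStarAlgebra A] [PartialOrder A] [StarOrderedRing A]
  [NonUnitalCStarAlgebra B] [PartialOrder B] [StarOrderedRing B]
  [NormedAddCommGroup H] [InnerProductSpace ℂ H]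

/-- `JointlyCB φ C`: the bilinear map `φ : A × B → B(H)` is jointly completely bounded with
constant `C`, i.e. for all `n`, `m`, all `a ∈ M_n(A)` and `b ∈ M_m(B)`, the operator
`[φ(a_{ik}, b_{jl})]_{(i,j),(k,l)}` on the direct sum of `n * m` copies of `H` has norm at most
`C * ‖a‖ * ‖b‖`. -/
def JointlyCB (φ : A →ₗ[ℂ] B →ₗ[ℂ] (H →L[ℂ] H)) (C : ℝ) : Prop :=
  ∀ (n m : ℕ) (a : CStarMatrix (Fin n) (Fin n) A) (b : CStarMatrix (Fin m) (Fin m) B)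
    (x : Fin n × Fin m → H),
    ∑ p : Fin n × Fin m, ‖∑ q : Fin n × Fin m, φ (a p.1 q.1) (b p.2 q.2) (x q)‖ ^ 2
      ≤ (C * ‖a‖ * ‖b‖) ^ 2 * ∑ q : Fin n × Fin m, ‖x q‖ ^ 2

/-- `HaagerupCB ψ C`: the bilinear map `ψ : A × B → B(H)` is completely bounded on the Haagerup
tensor product `A ⊗_h B` with constant `C`, i.e. for all `n` and all `a ∈ M_n(A)`, `b ∈ M_n(B)`,
the operator `[∑_k ψ(a_{ik}, b_{kj})]_{i,j}` on the direct sum of `n` copies of `H` has norm at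
most `C * ‖a‖ * ‖b‖`. -/
def HaagerupCB (ψ : A →ₗ[ℂ] B →ₗ[ℂ] (H →L[ℂ] H)) (C : ℝ) : Prop :=
  ∀ (n : ℕ) (a : CStarMatrix (Fin n) (Fin n) A) (b : CStarMatrix (Fin n) (Fin n) B)
    (x : Fin n → H),
    ∑ i : Fin n, ‖∑ j : Fin n, ∑ k : Fin n, ψ (a i k) (b k j) (x j)‖ ^ 2
      ≤ (C * ‖a‖ * ‖b‖) ^ 2 * ∑ j : Fin n, ‖x j‖ ^ 2

/-- `Decomposes φ`: `φ(a, b) = φ₁(a, b) + φ₂(b, a)` with `φ₁` completely bounded on `A ⊗_h B` and
`φ₂` completely bounded on `B ⊗_h A`. -/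
def Decomposes (φ : A →ₗ[ℂ] B →ₗ[ℂ] (H →L[ℂ] H)) : Prop :=
  ∃ (φ₁ : A →ₗ[ℂ] B →ₗ[ℂ] (H →L[ℂ] H)) (φ₂ : B →ₗ[ℂ] A →ₗ[ℂ] (H →L[ℂ] H)),
    (∃ C : ℝ, HaagerupCB φ₁ C) ∧ (∃ C : ℝ, HaagerupCB φ₂ C) ∧
      ∀ (a : A) (b : B), φ a b = φ₁ a b + φ₂ b a

end Defs

/-- The commutative C*-algebra `ℓ^∞` of bounded complex sequences, with the supremum norm. -/
abbrev Linf : Type := BoundedContinuousFunction ℕ ℂ

/-- The order of the C*-algebra `ℓ^∞`. -/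
noncomputable instance : PartialOrder Linf := CStarAlgebra.spectralOrder _

instance : StarOrderedRing Linf := CStarAlgebra.spectralOrderedRing _

/-- There are a Hilbert space `H` and a jointly completely bounded bilinear map
`ℓ^∞ × ℓ^∞ → B(H)` (with constant `√2`) which has no decomposition. -/
theorem result :
    ∃ (H : Type) (_ : NormedAddCommGroup H) (_ : InnerProductSpace ℂ H) (_ : CompleteSpace H)
      (φ : Linf →ₗ[ℂ] Linf →ₗ[ℂ] (H →L[ℂ] H)),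
      JointlyCB φ √2 ∧ ¬ Decomposes φ := by
  refine ⟨Pool.Agent.Lib.MP_cdaa24_an.HH, inferInstance, inferInstance, inferInstance,
    Pool.Agent.Lib.MP_cdaa24_an.phi, fun n m a b x => Pool.Agent.Lib.MP_cdaa24_an.phi_jcb a b x, ?_⟩
  rintro ⟨φ₁, φ₂, ⟨C₁, h₁⟩, ⟨C₂, h₂⟩, hφ⟩
  exact Pool.Agent.Lib.MP_cdaa24_an.no_decomposition φ₁ φ₂ C₁ C₂ h₁ h₂ hφ

end Pool.Agent.Results.MP_cdaa24_an.CommutativeCounterexample
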